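import Pool.Agent.Helper57.Tri.FA3
import Pool.Agent.Helper57.Tri.EX1
import Pool.Agent.Helper57.Tri.EX2
import Pool.Agent.Helper57.Tri.EX3

/-! Assembly of the theorem of MP_425fdd_co. -/

set_option autoImplicit false

namespace Pool.Agent.Tri

theorem assembly (V : Type) [Fintype V] [DecidableEq V] (E : Finset (Finset V))
    (hne : ∀ e ∈ E, e.Nonempty)
    (hsimp : ∀ e ∈ E, ∀ f ∈ E, e ⊆ f → e = f)
    (hcov : ∀ v : V, ∃ e ∈ E, v ∈ e)
    (hlin : ∀ e ∈ E, ∀ f ∈ E, e ≠ f → (e ∩ f).card ≤ 1)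
    (hreal : ∃ (f : Fin 3 → V → ℕ) (g : Fin 3 → Finset V → ℕ),
      (∀ i, Function.Injective (f i)) ∧
      (∀ i, ∀ e ∈ E, ∀ e' ∈ E, g i e = g i e' → e = e') ∧
      (∀ i, ∀ v : V, ∀ e ∈ E, f i v ≠ g i e) ∧
      (∀ v w : V, v ≠ w → ¬ ∀ i, f i v < f i w) ∧
      (∀ e ∈ E, ∀ e' ∈ E, e ≠ e' → ¬ ∀ i, g i e < g i e') ∧
      (∀ v : V, ∀ e ∈ E, ((∀ i, f i v < g i e) ↔ v ∈ e) ∧ ¬ ∀ i, g i e < f i v)) :
    ∃ S : V → Set (ℝ × ℝ),
      (∀ v, (∃ a b c : ℝ × ℝ, ¬ Collinear ℝ ({a, b, c} : Set (ℝ × ℝ)) ∧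
                S v = convexHull ℝ ({a, b, c} : Set (ℝ × ℝ))) ∨
            (∃ a b : ℝ × ℝ, a ≠ b ∧ S v = segment ℝ a b)) ∧
      ∀ U : Finset V, U ∈ E ↔ (U.Nonempty ∧ (⋂ v ∈ U, S v).Nonempty ∧
          ∀ W : Finset V, U ⊆ W → (⋂ v ∈ W, S v).Nonempty → W = U) := by
  obtain ⟨f, g, hf, hg, hfg, hanti, -, hmem⟩ := hreal
  obtain ⟨c, hcm, hc, hs⟩ := Cf.exists_ok (V := V) (E := {e // e ∈ E})
    (fun v => (f 0 v : ℤ)) (fun v => (f 1 v : ℤ)) (fun v => (f 2 v : ℤ))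
    (fun e => (g 0 e.1 : ℤ)) (fun e => (g 1 e.1 : ℤ)) (fun e => (g 2 e.1 : ℤ))
    (fun v e => v ∈ e.1)
    (by
      intro v e
      rw [← (hmem v e.1 e.2).1]
      simp only [Fin.forall_fin_succ, Fin.forall_fin_zero, Nat.cast_lt]
      exact ⟨fun h => ⟨h.1, h.2.1, h.2.2.1⟩, fun h => ⟨h.1, h.2.1, h.2.2, trivial⟩⟩)
    (by intro u v h; exact hf 0 (by exact_mod_cast h))
    (by intro u v h; exact hf 1 (by exact_mod_cast h))
    (by intro u v h; exact hf 2 (by exact_mod_cast h))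
    (by intro e e' h; exact Subtype.ext (hg 0 e.1 e.2 e'.1 e'.2 (by exact_mod_cast h)))
    (by intro e e' h; exact Subtype.ext (hg 1 e.1 e.2 e'.1 e'.2 (by exact_mod_cast h)))
    (by intro e e' h; exact Subtype.ext (hg 2 e.1 e.2 e'.1 e'.2 (by exact_mod_cast h)))
    (by intro v e h; exact hfg 0 v e.1 e.2 (by exact_mod_cast h))
    (by intro v e h; exact hfg 1 v e.1 e.2 (by exact_mod_cast h))
    (by intro v e h; exact hfg 2 v e.1 e.2 (by exact_mod_cast h))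
    (by
      intro u v h
      have huv : u ≠ v := by
        rintro rfl
        exact lt_irrefl _ h.1
      apply hanti u v huv
      intro i
      fin_cases i
      · exact_mod_cast h.1
      · exact_mod_cast h.2.1
      · exact_mod_cast h.2.2)
    (by
      intro e e' hee
      by_contra hcon
      push Not at hcon
      exact hee (Subtype.ext (hsimp e.1 e.2 e'.1 e'.2 (fun v hv => hcon v hv))))
    (by
      intro u v e e' huv h1 h2 h3 h4
      by_contra hcon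
      have h5 := hlin e.1 e.2 e'.1 e'.2 (fun h => hcon (Subtype.ext h))
      have h6 : ({u, v} : Finset V) ⊆ e.1 ∩ e'.1 := by
        intro x hx
        simp only [Finset.mem_insert, Finset.mem_singleton] at hx
        rcases hx with rfl | rfl
        · exact Finset.mem_inter.2 ⟨h1, h3⟩
        · exact Finset.mem_inter.2 ⟨h2, h4⟩
      have h7 := Finset.card_le_card h6
      rw [Finset.card_pair huv] at h7
      omega)
    (by
      intro v
      obtain ⟨e, he, hv⟩ := hcov v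
      exact ⟨⟨e, he⟩, hv⟩)
  obtain ⟨x', hx'⟩ := Cf.exists_x c hc hs
  have hc1 : ({ c with x := x' } : Cf V {e // e ∈ E}).Ok := Cf.Ok.upd hc x' c.y
  have hs1 : ({ c with x := x' } : Cf V {e // e ∈ E}).Sq := ⟨hs.K0, hs.D0, hs.KS, hs.DS, hs.hM⟩
  obtain ⟨y', hy'⟩ := Cf.exists_y _ hc1 hs1 hx'
  have hc2 : ({ c with x := x', y := y' } : Cf V {e // e ∈ E}).Ok := Cf.Ok.upd hc x' y'
  have hs2 : ({ c with x := x', y := y' } : Cf V {e // e ∈ E}).Sq :=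
    ⟨hs.K0, hs.D0, hs.KS, hs.DS, hs.hM⟩
  have hx2 : ({ c with x := x', y := y' } : Cf V {e // e ∈ E}).XR :=
    ⟨hx'.free, hx'.hpq, hx'.hL, hx'.hR⟩
  obtain ⟨S, hS1, hS2, hS3⟩ := Cf.final hc2 hs2 hx2 hy'
  have hmem2 : ∀ v (e : {e // e ∈ E}), ({ c with x := x', y := y' } : Cf V {e // e ∈ E}).mem v e ↔
      v ∈ e.1 := by
    intro v e
    show c.mem v e ↔ v ∈ e.1
    rw [hcm]
  have hpoint : ∀ e ∈ E, (⋂ v ∈ e, S v).Nonempty := by
    intro e he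
    refine ⟨_, Set.mem_iInter₂.2 (fun v hv => hS2 ⟨e, he⟩ v ((hmem2 v ⟨e, he⟩).2 hv))⟩
  have hhelly : ∀ U : Finset V, U.Nonempty → (⋂ v ∈ U, S v).Nonempty → ∃ e ∈ E, U ⊆ e := by
    intro U hU hp
    obtain ⟨e, he⟩ := hS3 U hU hp
    exact ⟨e.1, e.2, fun v hv => (hmem2 v e).1 (he v hv)⟩
  refine ⟨S, hS1, ?_⟩
  intro U
  constructor
  · intro hU
    refine ⟨hne U hU, hpoint U hU, ?_⟩
    intro W hUW hW
    obtain ⟨e, he, hWe⟩ := hhelly W ((hne U hU).mono hUW) hW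
    have : U = e := hsimp U hU e he (hUW.trans hWe)
    exact Finset.Subset.antisymm (this ▸ hWe) hUW
  · rintro ⟨hU, hp, hmax⟩
    obtain ⟨e, he, hUe⟩ := hhelly U hU hp
    have := hmax e hUe (hpoint e he)
    rw [← this]
    exact he

end Pool.Agent.Tri
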