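import Mathlib

/-!
# From (possibly degenerate) triangles with pair/triple conditions to the frozen statement

`Rep E S`: every hyperedge has a common point, and three (not necessarily distinct) vertices which
are not contained in a common hyperedge have sets without a common point.
-/

set_option autoImplicit false

namespace Pool.Agent.TriSeg

/-- the family `S` represents the linear hypergraph `E` (pair and triple conditions). -/
structure Rep {V : Type} (E : Finset (Finset V)) (S : V → Set (ℝ × ℝ)) : Prop where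
  point : ∀ e ∈ E, ∃ p, ∀ v ∈ e, p ∈ S v
  triple : ∀ u v w : V, (∀ e ∈ E, ¬ (u ∈ e ∧ v ∈ e ∧ w ∈ e)) → S u ∩ S v ∩ S w = ∅

section Comb

variable {V : Type} [DecidableEq V] {E : Finset (Finset V)} {S : V → Set (ℝ × ℝ)}

lemma Rep.subset_of_common (hR : Rep E S) (hcov : ∀ v : V, ∃ e ∈ E, v ∈ e)
    (hlin : ∀ e ∈ E, ∀ f ∈ E, e ≠ f → (e ∩ f).card ≤ 1) (W : Finset V) (hW : W.Nonempty)
    (hp : (⋂ v ∈ W, S v).Nonempty) : ∃ e ∈ E, W ⊆ e := by
  obtain ⟨p, hp⟩ := hp
  have hp' : ∀ v ∈ W, p ∈ S v := by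
    intro v hv
    exact Set.mem_iInter₂.1 hp v hv
  obtain ⟨u, hu⟩ := hW
  by_cases h1 : ∃ v ∈ W, v ≠ u
  · obtain ⟨v, hv, hvu⟩ := h1
    have key : ∀ w ∈ W, ∃ e ∈ E, u ∈ e ∧ v ∈ e ∧ w ∈ e := by
      intro w hw
      by_contra hcon
      push Not at hcon
      have := hR.triple u v w (by
        intro e he h
        exact hcon e he h.1 h.2.1 h.2.2)
      have hmem : p ∈ S u ∩ S v ∩ S w := ⟨⟨hp' u hu, hp' v hv⟩, hp' w hw⟩
      rw [this] at hmem
      exact hmem.elim
    obtain ⟨e, he, hue, hve, -⟩ := key u hu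
    refine ⟨e, he, ?_⟩
    intro w hw
    obtain ⟨e', he', hue', hve', hwe'⟩ := key w hw
    have : e = e' := by
      by_contra hne
      have h2 := hlin e he e' he' hne
      have h3 : ({v, u} : Finset V) ⊆ e ∩ e' := by
        intro x hx
        simp only [Finset.mem_insert, Finset.mem_singleton] at hx
        rcases hx with rfl | rfl
        · exact Finset.mem_inter.2 ⟨hve, hve'⟩
        · exact Finset.mem_inter.2 ⟨hue, hue'⟩
      have h4 := Finset.card_le_card h3
      rw [Finset.card_pair hvu] at h4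
      omega
    rw [this]
    exact hwe'
  · push Not at h1
    obtain ⟨e, he, hue⟩ := hcov u
    refine ⟨e, he, ?_⟩
    intro w hw
    rw [h1 w hw]
    exact hue

lemma Rep.iff (hR : Rep E S) (hne : ∀ e ∈ E, e.Nonempty)
    (hsimp : ∀ e ∈ E, ∀ f ∈ E, e ⊆ f → e = f) (hcov : ∀ v : V, ∃ e ∈ E, v ∈ e)
    (hlin : ∀ e ∈ E, ∀ f ∈ E, e ≠ f → (e ∩ f).card ≤ 1) (U : Finset V) :
    U ∈ E ↔ (U.Nonempty ∧ (⋂ v ∈ U, S v).Nonempty ∧
          ∀ W : Finset V, U ⊆ W → (⋂ v ∈ W, S v).Nonempty → W = U) := by
  have hpt : ∀ e ∈ E, (⋂ v ∈ e, S v).Nonempty := by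
    intro e he
    obtain ⟨p, hp⟩ := hR.point e he
    exact ⟨p, Set.mem_iInter₂.2 hp⟩
  constructor
  · intro hU
    refine ⟨hne U hU, hpt U hU, ?_⟩
    intro W hUW hW
    obtain ⟨e, he, hWe⟩ := hR.subset_of_common hcov hlin W ((hne U hU).mono hUW) hW
    have h1 : U = e := hsimp U hU e he (hUW.trans hWe)
    exact (Finset.Subset.antisymm hUW (h1 ▸ hWe)).symm
  · rintro ⟨hU, hUp, hmax⟩
    obtain ⟨e, he, hUe⟩ := hR.subset_of_common hcov hlin U hU hUp
    have := hmax e hUe (hpt e he)
    rw [← this]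
    exact he

end Comb

section Shape

/-- the convex hull of three collinear points is a segment -/
lemma hull_collinear (a b c : ℝ × ℝ) (h : Collinear ℝ ({a, b, c} : Set (ℝ × ℝ))) :
    ∃ p q : ℝ × ℝ, convexHull ℝ ({a, b, c} : Set (ℝ × ℝ)) = segment ℝ p q := by
  have key : ∀ a b c : ℝ × ℝ, Wbtw ℝ a b c →
      convexHull ℝ ({a, b, c} : Set (ℝ × ℝ)) = segment ℝ a c := by
    intro a b c hb
    apply Set.Subset.antisymm
    · apply convexHull_min
      · intro x hx
        simp only [Set.mem_insert_iff, Set.mem_singleton_iff] at hx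
        rcases hx with rfl | rfl | rfl
        · exact left_mem_segment ℝ _ _
        · rw [← mem_segment_iff_wbtw] at hb
          exact hb
        · exact right_mem_segment ℝ _ _
      · exact convex_segment _ _
    · rw [← convexHull_pair]
      apply convexHull_mono
      intro x hx
      simp only [Set.mem_insert_iff, Set.mem_singleton_iff] at hx ⊢
      tauto
  rcases h.wbtw_or_wbtw_or_wbtw with h | h | h
  · exact ⟨a, c, key a b c h⟩
  · refine ⟨b, a, ?_⟩
    rw [← key b c a h]
    congr 1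
    ext x
    simp only [Set.mem_insert_iff, Set.mem_singleton_iff]
    tauto
  · refine ⟨c, b, ?_⟩
    rw [← key c a b h]
    congr 1
    ext x
    simp only [Set.mem_insert_iff, Set.mem_singleton_iff]
    tauto

/-- thickened sets: a singleton `{p}` becomes a horizontal segment of length `ε` -/
lemma exists_fat {V : Type} [Fintype V] (E : Finset (Finset V)) (S : V → Set (ℝ × ℝ))
    (hS : ∀ v, IsCompact (S v)) (hR : Rep E S) :
    ∃ S' : V → Set (ℝ × ℝ), Rep E S' ∧ ∀ v, (S' v = S v ∧ ∀ p, S v ≠ {p}) ∨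
      ∃ p q : ℝ × ℝ, p ≠ q ∧ S' v = segment ℝ p q := by
  classical
  -- the approximating families
  let T : ℕ → V → Set (ℝ × ℝ) := fun n v =>
    if h : ∃ p, S v = {p} then
      segment ℝ h.choose (h.choose + (1 / ((n : ℝ) + 1), 0)) else S v
  have hTS : ∀ n v, S v ⊆ T n v := by
    intro n v
    by_cases h : ∃ p, S v = {p}
    · simp only [T, h, dif_pos]
      have hc := h.choose_spec
      intro x hx
      rw [hc] at hx
      rw [Set.mem_singleton_iff] at hx
      rw [hx]
      exact left_mem_segment ℝ _ _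
    · simp only [T, h]
      simp
  have hTc : ∀ n v, IsCompact (T n v) := by
    intro n v
    by_cases h : ∃ p, S v = {p}
    · simp only [T, h, dif_pos]
      rw [← convexHull_pair]
      exact Set.Finite.isCompact_convexHull (𝕜 := ℝ) (Set.toFinite _)
    · simp only [T, h]
      simpa using hS v
  have hTanti : ∀ v, Antitone (fun n => T n v) := by
    intro v
    apply antitone_nat_of_succ_le
    intro n
    by_cases h : ∃ p, S v = {p}
    · simp only [T, h, dif_pos]
      apply (convex_segment _ _).segment_subset (left_mem_segment ℝ _ _)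
      rw [segment_eq_image']
      have h1 : (0 : ℝ) < (n : ℝ) + 1 := by positivity
      have h2 : (0 : ℝ) < ((n + 1 : ℕ) : ℝ) + 1 := by positivity
      refine ⟨((n : ℝ) + 1) / (((n + 1 : ℕ) : ℝ) + 1), ⟨by positivity, ?_⟩, ?_⟩
      · rw [div_le_one h2]
        push_cast
        linarith
      · have h3 : h.choose + (1 / ((n : ℝ) + 1), 0) - h.choose = ((1 / ((n : ℝ) + 1), 0) : ℝ × ℝ) := by
          abel
        simp only [h3, Prod.smul_mk, smul_eq_mul, mul_zero]
        congr 2
        field_simp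
    · simp only [T, h]
      simp
  have hTinter : ∀ v, (⋂ n, T n v) ⊆ S v := by
    intro v x hx
    by_cases h : ∃ p, S v = {p}
    · have hc := h.choose_spec
      have hx' : ∀ n : ℕ, x ∈ segment ℝ h.choose (h.choose + (1 / ((n : ℝ) + 1), 0)) := by
        intro n
        have := Set.mem_iInter.1 hx n
        simpa only [T, h, dif_pos] using this
      have h2 : ∀ n : ℕ, x.2 = h.choose.2 ∧ h.choose.1 ≤ x.1 ∧ x.1 ≤ h.choose.1 + 1 / ((n : ℝ) + 1) := by
        intro n
        obtain ⟨s, t, hs, ht, hst, hxe⟩ := hx' n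
        have h1 : (0 : ℝ) < (n : ℝ) + 1 := by positivity
        have hpos : (0 : ℝ) < 1 / ((n : ℝ) + 1) := by positivity
        have e1 : x.1 = s * h.choose.1 + t * (h.choose.1 + 1 / ((n : ℝ) + 1)) := by
          rw [← hxe]; simp [mul_add]
        have e2 : x.2 = s * h.choose.2 + t * (h.choose.2 + 0) := by
          rw [← hxe]; simp
        have hs' : s = 1 - t := by linarith
        refine ⟨?_, ?_, ?_⟩
        · rw [e2, hs']; ring
        · rw [e1, hs']
          nlinarith [mul_nonneg ht hpos.le]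
        · rw [e1, hs']
          have : t ≤ 1 := by linarith
          nlinarith [mul_le_mul_of_nonneg_right this hpos.le]
      have h3 : x.1 ≤ h.choose.1 := by
        apply le_of_forall_pos_le_add
        intro ε hε
        obtain ⟨n, hn⟩ := exists_nat_one_div_lt hε
        have := (h2 n).2.2
        linarith
      rw [hc, Set.mem_singleton_iff]
      exact Prod.ext (le_antisymm h3 (h2 0).2.1) (h2 0).1
    · have := Set.mem_iInter.1 hx 0
      simp only [T, h] at this
      simpa using this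
  -- for every bad triple some index works
  have hbad : ∀ t : V × V × V, ∃ n : ℕ, (∀ e ∈ E, ¬ (t.1 ∈ e ∧ t.2.1 ∈ e ∧ t.2.2 ∈ e)) →
      T n t.1 ∩ T n t.2.1 ∩ T n t.2.2 = ∅ := by
    rintro ⟨u, v, w⟩
    by_cases hb : ∀ e ∈ E, ¬ (u ∈ e ∧ v ∈ e ∧ w ∈ e)
    · have hemp := hR.triple u v w hb
      by_contra hcon
      push Not at hcon
      have hnon : ∀ n, (T n u ∩ T n v ∩ T n w).Nonempty := by
        intro n
        exact (hcon n).2
      have hK : (⋂ n, (T n u ∩ T n v ∩ T n w)).Nonempty := by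
        apply IsCompact.nonempty_iInter_of_sequence_nonempty_isCompact_isClosed
        · intro n
          exact Set.inter_subset_inter (Set.inter_subset_inter (hTanti u (Nat.le_succ n))
            (hTanti v (Nat.le_succ n))) (hTanti w (Nat.le_succ n))
        · exact hnon
        · exact ((hTc 0 u).inter (hTc 0 v)).inter (hTc 0 w)
        · intro n
          exact (((hTc n u).inter (hTc n v)).inter (hTc n w)).isClosed
      obtain ⟨x, hx⟩ := hK
      have hx' := Set.mem_iInter.1 hx
      have : x ∈ S u ∩ S v ∩ S w :=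
        ⟨⟨hTinter u (Set.mem_iInter.2 fun n => (hx' n).1.1),
          hTinter v (Set.mem_iInter.2 fun n => (hx' n).1.2)⟩,
          hTinter w (Set.mem_iInter.2 fun n => (hx' n).2)⟩
      rw [hemp] at this
      exact this
    · exact ⟨0, fun h => absurd h hb⟩
  choose N hN using hbad
  let M := Finset.univ.sup N
  refine ⟨T M, ⟨?_, ?_⟩, ?_⟩
  · intro e he
    obtain ⟨p, hp⟩ := hR.point e he
    exact ⟨p, fun v hv => hTS M v (hp v hv)⟩
  · intro u v w hb
    have h1 := hN (u, v, w) hb
    have h2 : N (u, v, w) ≤ M := Finset.le_sup (f := N) (Finset.mem_univ (u, v, w))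
    apply Set.eq_empty_of_subset_empty
    rw [← h1]
    exact Set.inter_subset_inter (Set.inter_subset_inter (hTanti u h2) (hTanti v h2)) (hTanti w h2)
  · intro v
    by_cases h : ∃ p, S v = {p}
    · right
      refine ⟨h.choose, h.choose + (1 / ((M : ℝ) + 1), 0), ?_, ?_⟩
      · intro heq
        have h1 : (0 : ℝ) < 1 / ((M : ℝ) + 1) := by positivity
        have := congrArg Prod.fst heq
        simp only [Prod.fst_add] at this
        linarith
      · simp only [T, h, dif_pos]
    · left
      refine ⟨?_, ?_⟩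
      · simp only [T, h]
        simp
      · intro p hp
        exact h ⟨p, hp⟩

end Shape

/-- **Final assembly.**  Possibly degenerate triangles satisfying the pair/triple conditions give a
representation in the sense of the problem. -/
theorem main_of_hull {V : Type} [Fintype V] [DecidableEq V] (E : Finset (Finset V))
    (hne : ∀ e ∈ E, e.Nonempty) (hsimp : ∀ e ∈ E, ∀ f ∈ E, e ⊆ f → e = f)
    (hcov : ∀ v : V, ∃ e ∈ E, v ∈ e) (hlin : ∀ e ∈ E, ∀ f ∈ E, e ≠ f → (e ∩ f).card ≤ 1)
    (a b c : V → ℝ × ℝ)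
    (hR : Rep E (fun v => convexHull ℝ ({a v, b v, c v} : Set (ℝ × ℝ)))) :
    ∃ S : V → Set (ℝ × ℝ),
      (∀ v, (∃ a b c : ℝ × ℝ, ¬ Collinear ℝ ({a, b, c} : Set (ℝ × ℝ)) ∧
                S v = convexHull ℝ ({a, b, c} : Set (ℝ × ℝ))) ∨
            (∃ a b : ℝ × ℝ, a ≠ b ∧ S v = segment ℝ a b)) ∧
      ∀ U : Finset V, U ∈ E ↔ (U.Nonempty ∧ (⋂ v ∈ U, S v).Nonempty ∧
          ∀ W : Finset V, U ⊆ W → (⋂ v ∈ W, S v).Nonempty → W = U) := by
  obtain ⟨S, hS, hsh⟩ := exists_fat E _ (fun v => Set.Finite.isCompact_convexHull (𝕜 := ℝ)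
    (Set.toFinite ({a v, b v, c v} : Set (ℝ × ℝ)))) hR
  refine ⟨S, ?_, fun U => hS.iff hne hsimp hcov hlin U⟩
  intro v
  rcases hsh v with ⟨h1, h2⟩ | ⟨p, q, hpq, h⟩
  · by_cases hc : Collinear ℝ ({a v, b v, c v} : Set (ℝ × ℝ))
    · right
      obtain ⟨p, q, hpq⟩ := hull_collinear _ _ _ hc
      refine ⟨p, q, ?_, by rw [h1]; exact hpq⟩
      rintro rfl
      apply h2 p
      simp only [hpq]
      exact segment_same ℝ p
    · left
      exact ⟨a v, b v, c v, hc, h1⟩
  · right
    exact ⟨p, q, hpq, h⟩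

end Pool.Agent.TriSeg
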