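import Mathlib

/-!
# Disjointness of two convex polygons from side information at their corners
-/

set_option autoImplicit false

namespace Pool.Agent.TriSeg

/-- a point of a convex set which is not extreme can be moved both ways in some direction -/
lemma exists_dir {P : Set (ℝ × ℝ)} (hP : Convex ℝ P) {s : ℝ × ℝ} (hs : s ∈ P)
    (hne : s ∉ Set.extremePoints ℝ P) :
    ∃ a : ℝ × ℝ, a ≠ 0 ∧ ∃ r : ℝ, 0 < r ∧ ∀ ε : ℝ, |ε| ≤ r → s + ε • a ∈ P := by
  rw [mem_extremePoints] at hne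
  push Not at hne
  obtain ⟨s1, hs1, s2, hs2, ⟨α, β, hα, hβ, hαβ, hsum⟩, hneq⟩ := hne hs
  have h12 : s1 ≠ s2 := by
    intro h
    rw [h, ← add_smul, hαβ, one_smul] at hsum
    exact hneq (h.trans hsum) hsum
  refine ⟨s2 - s1, sub_ne_zero.2 h12.symm, min α β, lt_min hα hβ, ?_⟩
  intro ε hε
  have h1 := abs_le.1 hε
  have h2 : min α β ≤ α := min_le_left _ _
  have h3 : min α β ≤ β := min_le_right _ _
  have : s + ε • (s2 - s1) = (α - ε) • s1 + (β + ε) • s2 := by
    rw [← hsum]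
    ext <;> simp <;> ring
  rw [this]
  exact hP hs1 hs2 (by linarith) (by linarith) (by linarith)

/-- **Side lemma in a strip.**  If inside the strip `lo ≤ y ≤ hi` every corner of `A` is strictly
left of `conv B` at its own height, every corner of `B` is strictly right of `conv A` at its own
height, and `conv A` is strictly left of `conv B` at the two heights `lo` and `hi`, then `conv A` is
strictly left of `conv B` at every common height in the strip. -/
theorem left_of_sides_strip (A B : Set (ℝ × ℝ)) (hAf : A.Finite) (hBf : B.Finite) (lo hi : ℝ)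
    (hA : ∀ a ∈ A, lo < a.2 → a.2 < hi → ∀ t ∈ convexHull ℝ B, t.2 = a.2 → a.1 < t.1)
    (hB : ∀ b ∈ B, lo < b.2 → b.2 < hi → ∀ s ∈ convexHull ℝ A, s.2 = b.2 → s.1 < b.1)
    (hlo : ∀ s ∈ convexHull ℝ A, ∀ t ∈ convexHull ℝ B, s.2 = lo → t.2 = lo → s.1 < t.1)
    (hhi : ∀ s ∈ convexHull ℝ A, ∀ t ∈ convexHull ℝ B, s.2 = hi → t.2 = hi → s.1 < t.1) :
    ∀ s ∈ convexHull ℝ A, ∀ t ∈ convexHull ℝ B, s.2 = t.2 → lo ≤ s.2 → s.2 ≤ hi → s.1 < t.1 := by
  intro s₀ hs₀ t₀ ht₀ hst₀ hlo₀ hhi₀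
  set P := convexHull ℝ A with hPdef
  set Q := convexHull ℝ B with hQdef
  have hPc : IsCompact P := Set.Finite.isCompact_convexHull (𝕜 := ℝ) hAf
  have hQc : IsCompact Q := Set.Finite.isCompact_convexHull (𝕜 := ℝ) hBf
  have hPx : Convex ℝ P := convex_convexHull ℝ A
  have hQx : Convex ℝ Q := convex_convexHull ℝ B
  let D : Set ((ℝ × ℝ) × (ℝ × ℝ)) := (P ×ˢ Q) ∩ {z | z.1.2 = z.2.2 ∧ lo ≤ z.1.2 ∧ z.1.2 ≤ hi}
  have hDc : IsCompact D := by
    apply (hPc.prod hQc).inter_right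
    have c1 : Continuous (fun z : (ℝ × ℝ) × (ℝ × ℝ) => z.1.2) := by fun_prop
    have c2 : Continuous (fun z : (ℝ × ℝ) × (ℝ × ℝ) => z.2.2) := by fun_prop
    have k1 : IsClosed {z : (ℝ × ℝ) × (ℝ × ℝ) | z.1.2 = z.2.2} := isClosed_eq c1 c2
    have k2 : IsClosed {z : (ℝ × ℝ) × (ℝ × ℝ) | lo ≤ z.1.2} := isClosed_le continuous_const c1
    have k3 : IsClosed {z : (ℝ × ℝ) × (ℝ × ℝ) | z.1.2 ≤ hi} := isClosed_le c1 continuous_const
    exact k1.inter (k2.inter k3)
  let φ : ((ℝ × ℝ) × (ℝ × ℝ)) →L[ℝ] ℝ :=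
    (ContinuousLinearMap.fst ℝ ℝ ℝ).comp (ContinuousLinearMap.fst ℝ (ℝ × ℝ) (ℝ × ℝ)) -
    (ContinuousLinearMap.fst ℝ ℝ ℝ).comp (ContinuousLinearMap.snd ℝ (ℝ × ℝ) (ℝ × ℝ))
  have hφ : ∀ z, φ z = z.1.1 - z.2.1 := fun z => rfl
  let F : Set ((ℝ × ℝ) × (ℝ × ℝ)) := {x ∈ D | ∀ y ∈ D, φ y ≤ φ x}
  have hz₀ : (s₀, t₀) ∈ D := ⟨⟨hs₀, ht₀⟩, hst₀, hlo₀, hhi₀⟩
  have hFne : F.Nonempty := by
    obtain ⟨z, hz, hmax⟩ := hDc.exists_isMaxOn ⟨_, hz₀⟩ φ.continuous.continuousOn
    exact ⟨z, hz, fun y hy => hmax hy⟩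
  have hFexp : IsExposed ℝ D F := fun _ => ⟨φ, rfl⟩
  have hFc : IsCompact F := hFexp.isCompact hDc
  obtain ⟨z, hz⟩ := hFc.extremePoints_nonempty hFne
  have hzF : z ∈ F := extremePoints_subset hz
  have hzD : z ∈ Set.extremePoints ℝ D := hFexp.isExtreme.extremePoints_subset_extremePoints hz
  have hle : φ (s₀, t₀) ≤ φ z := hzF.2 _ hz₀
  have hzD' : z ∈ D := hzF.1
  obtain ⟨⟨hz1, hz2⟩, hz3⟩ := hzD'
  have hz3' : z.1.2 = z.2.2 := hz3.1
  have hzl : lo ≤ z.1.2 := hz3.2.1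
  have hzh : z.1.2 ≤ hi := hz3.2.2
  -- boundary of the strip, or one of the two points is a corner
  have hcorner : z.1.2 = lo ∨ z.1.2 = hi ∨ (lo < z.1.2 ∧ z.1.2 < hi ∧ (z.1 ∈ A ∨ z.2 ∈ B)) := by
    by_cases hb1 : z.1.2 = lo
    · exact Or.inl hb1
    by_cases hb2 : z.1.2 = hi
    · exact Or.inr (Or.inl hb2)
    have hl' : lo < z.1.2 := lt_of_le_of_ne hzl (Ne.symm hb1)
    have hh' : z.1.2 < hi := lt_of_le_of_ne hzh hb2
    refine Or.inr (Or.inr ⟨hl', hh', ?_⟩)
    by_contra hcon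
    push Not at hcon
    have e1 : z.1 ∉ Set.extremePoints ℝ P := fun h => hcon.1 (extremePoints_convexHull_subset h)
    have e2 : z.2 ∉ Set.extremePoints ℝ Q := fun h => hcon.2 (extremePoints_convexHull_subset h)
    obtain ⟨a, ha, r, hr, har⟩ := exists_dir hPx hz1 e1
    obtain ⟨b, hb, r', hr', hbr⟩ := exists_dir hQx hz2 e2
    -- shrink `r` such that we stay inside the strip
    obtain ⟨ρ, hρ, hρr, hρs⟩ : ∃ ρ : ℝ, 0 < ρ ∧ ρ ≤ r ∧ ρ * |a.2| ≤ min (z.1.2 - lo) (hi - z.1.2) := by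
      have hm : 0 < min (z.1.2 - lo) (hi - z.1.2) := lt_min (by linarith) (by linarith)
      refine ⟨min r (min (z.1.2 - lo) (hi - z.1.2) / (|a.2| + 1)), lt_min hr (by positivity),
        min_le_left _ _, ?_⟩
      calc min r (min (z.1.2 - lo) (hi - z.1.2) / (|a.2| + 1)) * |a.2|
          ≤ (min (z.1.2 - lo) (hi - z.1.2) / (|a.2| + 1)) * |a.2| := by
            gcongr; exact min_le_right _ _
        _ ≤ (min (z.1.2 - lo) (hi - z.1.2) / (|a.2| + 1)) * (|a.2| + 1) := by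
            gcongr; linarith
        _ = _ := by field_simp
    -- choose the two displacements
    obtain ⟨ε, δ, hεδ, hne, hε, hδ⟩ : ∃ ε δ : ℝ, ε * a.2 = δ * b.2 ∧ (ε ≠ 0 ∨ δ ≠ 0) ∧ |ε| ≤ ρ ∧
        |δ| ≤ r' := by
      by_cases h0 : a.2 = 0 ∧ b.2 = 0
      · refine ⟨min ρ r', min ρ r', by rw [h0.1, h0.2], Or.inl (lt_min hρ hr').ne', ?_, ?_⟩
        · rw [abs_of_pos (lt_min hρ hr')]; exact min_le_left _ _
        · rw [abs_of_pos (lt_min hρ hr')]; exact min_le_right _ _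
      · let τ : ℝ := min (ρ / (|b.2| + 1)) (r' / (|a.2| + 1))
        have hτ : 0 < τ := lt_min (by positivity) (by positivity)
        refine ⟨τ * b.2, τ * a.2, by ring, ?_, ?_, ?_⟩
        · by_contra hcon2
          push Not at hcon2
          apply h0
          constructor
          · exact (mul_eq_zero.1 hcon2.2).resolve_left hτ.ne'
          · exact (mul_eq_zero.1 hcon2.1).resolve_left hτ.ne'
        · rw [abs_mul, abs_of_pos hτ]
          calc τ * |b.2| ≤ (ρ / (|b.2| + 1)) * |b.2| := by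
                gcongr; exact min_le_left _ _
            _ ≤ (ρ / (|b.2| + 1)) * (|b.2| + 1) := by
                gcongr; linarith
            _ = ρ := by field_simp
        · rw [abs_mul, abs_of_pos hτ]
          calc τ * |a.2| ≤ (r' / (|a.2| + 1)) * |a.2| := by
                gcongr; exact min_le_right _ _
            _ ≤ (r' / (|a.2| + 1)) * (|a.2| + 1) := by
                gcongr; linarith
            _ = r' := by field_simp
    have hstay : |ε * a.2| ≤ min (z.1.2 - lo) (hi - z.1.2) := by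
      rw [abs_mul]
      exact (mul_le_mul_of_nonneg_right hε (abs_nonneg _)).trans hρs
    have hst1 := (abs_le.1 (hstay.trans (min_le_left _ _)))
    have hst2 := (abs_le.1 (hstay.trans (min_le_right _ _)))
    have hm1 : ((z.1 + ε • a, z.2 + δ • b) : (ℝ × ℝ) × (ℝ × ℝ)) ∈ D := by
      refine ⟨⟨har ε (hε.trans hρr), hbr δ hδ⟩, ?_, ?_, ?_⟩
      · simp only [Prod.snd_add, Prod.smul_snd, smul_eq_mul]
        rw [hz3', hεδ]
      · simp only [Prod.snd_add, Prod.smul_snd, smul_eq_mul]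
        linarith [hst1.1]
      · simp only [Prod.snd_add, Prod.smul_snd, smul_eq_mul]
        linarith [hst2.2]
    have hm2 : ((z.1 + (-ε) • a, z.2 + (-δ) • b) : (ℝ × ℝ) × (ℝ × ℝ)) ∈ D := by
      refine ⟨⟨har (-ε) (by rw [abs_neg]; exact hε.trans hρr), hbr (-δ) (by rwa [abs_neg])⟩, ?_, ?_, ?_⟩
      · simp only [Prod.snd_add, Prod.smul_snd, smul_eq_mul]
        rw [hz3']
        linarith
      · simp only [Prod.snd_add, Prod.smul_snd, smul_eq_mul]
        linarith [hst1.2]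
      · simp only [Prod.snd_add, Prod.smul_snd, smul_eq_mul]
        linarith [hst2.1]
    have hmid : z ∈ openSegment ℝ ((z.1 + ε • a, z.2 + δ • b) : (ℝ × ℝ) × (ℝ × ℝ))
        (z.1 + (-ε) • a, z.2 + (-δ) • b) := by
      refine ⟨1 / 2, 1 / 2, by norm_num, by norm_num, by norm_num, ?_⟩
      ext <;> simp <;> ring
    rw [mem_extremePoints] at hzD
    have := (hzD.2 _ hm1 _ hm2 hmid).1
    have g1 : z.1 + ε • a = z.1 := congrArg Prod.fst this
    have g2 : z.2 + δ • b = z.2 := congrArg Prod.snd this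
    have g1' : ε • a = 0 := by simpa using g1
    have g2' : δ • b = 0 := by simpa using g2
    rcases hne with h | h
    · exact ha ((smul_eq_zero.1 g1').resolve_left h)
    · exact hb ((smul_eq_zero.1 g2').resolve_left h)
  have hneg : φ z < 0 := by
    rw [hφ]
    rcases hcorner with h | h | ⟨hl, hh, h | h⟩
    · have := hlo _ hz1 _ hz2 h (hz3' ▸ h)
      linarith
    · have := hhi _ hz1 _ hz2 h (hz3' ▸ h)
      linarith
    · have := hA _ h hl hh _ hz2 hz3'.symm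
      linarith
    · have := hB _ h (hz3' ▸ hl) (hz3' ▸ hh) _ hz1 hz3'
      linarith
  have : φ (s₀, t₀) < 0 := lt_of_le_of_lt hle hneg
  rw [hφ] at this
  simpa using this

/-- **Side lemma.**  If every corner of `A` is strictly left of `conv B` at its own height, and every
corner of `B` is strictly right of `conv A` at its own height, then `conv A` is strictly left of
`conv B` at every common height. -/
theorem left_of_sides (A B : Set (ℝ × ℝ)) (hAf : A.Finite) (hBf : B.Finite)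
    (hA : ∀ a ∈ A, ∀ t ∈ convexHull ℝ B, t.2 = a.2 → a.1 < t.1)
    (hB : ∀ b ∈ B, ∀ s ∈ convexHull ℝ A, s.2 = b.2 → s.1 < b.1) :
    ∀ s ∈ convexHull ℝ A, ∀ t ∈ convexHull ℝ B, s.2 = t.2 → s.1 < t.1 := by
  intro s hs t ht hst
  -- choose a strip which contains `A` strictly
  obtain ⟨M, hM⟩ := (hAf.image (fun a : ℝ × ℝ => |a.2|)).bddAbove
  have hM' : ∀ a ∈ A, |a.2| ≤ M := fun a ha => hM ⟨a, ha, rfl⟩
  have hconv : ∀ p ∈ convexHull ℝ A, |p.2| ≤ M := by
    intro p hp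
    have hc : Convex ℝ {p : ℝ × ℝ | |p.2| ≤ M} := by
      have h1 : {p : ℝ × ℝ | |p.2| ≤ M} = {p : ℝ × ℝ | p.2 ≤ M} ∩ {p : ℝ × ℝ | -M ≤ p.2} := by
        ext p
        simp only [Set.mem_ofPred_eq, Set.mem_inter_iff, abs_le]
        tauto
      rw [h1]
      exact (convex_halfSpace_le (f := fun p : ℝ × ℝ => p.2) ⟨fun _ _ => rfl, fun _ _ => rfl⟩ M).inter
        (convex_halfSpace_ge (f := fun p : ℝ × ℝ => p.2) ⟨fun _ _ => rfl, fun _ _ => rfl⟩ (-M))
    exact convexHull_min (fun a ha => hM' a ha) hc hp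
  refine left_of_sides_strip A B hAf hBf (-M - 1) (M + 1) (fun a ha _ _ => hA a ha)
    (fun b hb _ _ => hB b hb) ?_ ?_ s hs t ht hst ?_ ?_
  · intro p hp q _ hpl _
    have := abs_le.1 (hconv p hp)
    exfalso
    linarith [this.1]
  · intro p hp q _ hpl _
    have := abs_le.1 (hconv p hp)
    exfalso
    linarith [this.2]
  · have := abs_le.1 (hconv s hs)
    linarith [this.1]
  · have := abs_le.1 (hconv s hs)
    linarith [this.2]

end Pool.Agent.TriSeg
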